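import Pool.Agent.Helper86_Cube.Main
import Pool.Agent.Helper86_Cube.Cor

/-!
# Nonvanishing power moments on the unit cube
-/

namespace Pool.Agent.Results.MP_31342c_an.TopCofactor

open Pool.Agent.Helper86Cube MvPolynomial MeasureTheory

/-- Let `f ≠ 0` be a complex polynomial in `n` variables all of whose top cofactors are products of
powers of affine forms in disjoint sets of variables (as is the case, for instance, if the total
degree is at most three, or if all exponents are at most one, or if `n = 2` and the total degree is
at most four, or `n = 2` and `f` has degree at most one in one of the variables, or `n = 2` and `f`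
is quasi-homogeneous). Then infinitely many power moments of `f` on the unit cube do not vanish. -/
theorem result {n : ℕ} (f : MvPolynomial (Fin n) ℂ) (hf : f ≠ 0)
    (h : (∀ S : Finset (Fin n), S.card = topCount f → IsProductOfAffinePowers (topCofactor f S)) ∨
      f.totalDegree ≤ 3 ∨ (∀ i, f.degreeOf i ≤ 1) ∨
      (n = 2 ∧ (f.totalDegree ≤ 4 ∨ (∃ i, f.degreeOf i ≤ 1) ∨
        ∃ w : Fin n → ℤ, (∀ i, w i ≠ 0) ∧ ∃ d : ℤ, ∀ e ∈ f.support, ∑ i, w i * (e i : ℤ) = d)))
    (M : ℕ) :
    ∃ m ≥ M, ∫ x in Set.Icc (0 : Fin n → ℝ) 1,
      (MvPolynomial.eval (fun i => ((x i : ℝ) : ℂ)) f) ^ m ≠ 0 := by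
  refine main f hf ?_ M
  rcases h with h | h | h | ⟨rfl, h | ⟨i, h⟩ | ⟨w, hw, d, hd⟩⟩
  · exact h
  · exact criterion_of_totalDegree_le_three f h
  · refine criterion_of_maxExp_le_one f ?_
    refine Finset.sup_le fun e he => Finset.sup_le fun i _ => ?_
    exact le_trans (monomial_le_degreeOf i he) (h i)
  · exact criterion_two_vars f h
  · exact criterion_two_vars_linear f i h
  · refine criterion_two_vars_quasi f w d hw fun e he => ?_
    have := hd e he
    rwa [Fin.sum_univ_two] at this

end Pool.Agent.Results.MP_31342c_an.TopCofactor
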